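import Pool.Agent.K4W.StmtsW

/-!
# Squad K4W, row WFI: Weil's bound from Newton's identities
-/

set_option autoImplicit false

open Polynomial

namespace Pool.Agent.K4W.H8

open Pool.Agent.K4W

/-- the recursion for `n ≥ 4` -/
theorem rec4 (a S : ℕ → ℂ) (h0 : a 0 = 1) (hz : ∀ n, 4 ≤ n → a n = 0)
    (hr : ∀ n : ℕ, 1 ≤ n → (n : ℂ) * a n = ∑ r ∈ Finset.Icc 1 n, S r * a (n - r)) (n : ℕ)
    (hn : 4 ≤ n) : S n = -(S (n - 1) * a 1 + S (n - 2) * a 2 + S (n - 3) * a 3) := by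
  have h := hr n (by omega)
  rw [hz n hn, mul_zero] at h
  have hs : ∑ r ∈ Finset.Icc 1 n, S r * a (n - r) =
      ∑ r ∈ ({n, n - 1, n - 2, n - 3} : Finset ℕ), S r * a (n - r) := by
    symm
    apply Finset.sum_subset
    · intro r hr'
      simp only [Finset.mem_insert, Finset.mem_singleton] at hr'
      rw [Finset.mem_Icc]
      omega
    · intro r hr' hr''
      rw [Finset.mem_Icc] at hr'
      simp only [Finset.mem_insert, Finset.mem_singleton, not_or] at hr''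
      rw [hz (n - r) (by omega), mul_zero]
  rw [hs] at h
  have m1 : n ∉ ({n - 1, n - 2, n - 3} : Finset ℕ) := by
    simp only [Finset.mem_insert, Finset.mem_singleton, not_or]
    omega
  have m2 : n - 1 ∉ ({n - 2, n - 3} : Finset ℕ) := by
    simp only [Finset.mem_insert, Finset.mem_singleton, not_or]
    omega
  have m3 : n - 2 ∉ ({n - 3} : Finset ℕ) := by
    simp only [Finset.mem_singleton]
    omega
  rw [Finset.sum_insert m1, Finset.sum_insert m2, Finset.sum_insert m3, Finset.sum_singleton,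
    Nat.sub_self, h0, show n - (n - 1) = 1 by omega, show n - (n - 2) = 2 by omega,
    show n - (n - 3) = 3 by omega] at h
  linear_combination -h

/-- the recursion for `n = 1, 2, 3` -/
theorem rec123 (a S : ℕ → ℂ) (h0 : a 0 = 1)
    (hr : ∀ n : ℕ, 1 ≤ n → (n : ℂ) * a n = ∑ r ∈ Finset.Icc 1 n, S r * a (n - r)) :
    S 1 = a 1 ∧ S 2 = 2 * a 2 - S 1 * a 1 ∧ S 3 = 3 * a 3 - S 1 * a 2 - S 2 * a 1 := by
  have r1 := hr 1 le_rfl
  have r2 := hr 2 (by norm_num)
  have r3 := hr 3 (by norm_num)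
  rw [show Finset.Icc 1 1 = {1} from rfl, Finset.sum_singleton, Nat.sub_self, h0] at r1
  rw [show Finset.Icc 1 2 = {1, 2} from rfl, Finset.sum_insert (by decide),
    Finset.sum_singleton, Nat.sub_self, h0, show 2 - 1 = 1 from rfl] at r2
  rw [show Finset.Icc 1 3 = {1, 2, 3} from rfl, Finset.sum_insert (by decide),
    Finset.sum_insert (by decide), Finset.sum_singleton, Nat.sub_self, h0,
    show 3 - 1 = 2 from rfl, show 3 - 2 = 1 from rfl] at r3
  push_cast at r1 r2 r3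
  refine ⟨?_, ?_, ?_⟩
  · linear_combination -r1
  · linear_combination -r2
  · linear_combination -r3

/-- **WFI** -/
theorem wfi (hva : WvaStmt) (hao : WaoStmt) (hrl : WrlStmt) (hex : WexStmt) (hst : WstStmt)
    (hnt : WntStmt) (hpw : WpwStmt) : WfiStmt := by
  intro p _ A B hp hA
  obtain ⟨h0, h1⟩ := hao p A B
  have hr : ∀ n : ℕ, 1 ≤ n → (n : ℂ) * an p A B n =
      ∑ r ∈ Finset.Icc 1 n, Sr p A B r * an p A B (n - r) := fun n hn => hrl p A B n hn
  have hz : ∀ n, 4 ≤ n → an p A B n = 0 := fun n hn => hva p A B n hp hA hn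
  obtain ⟨e1, e2, e3⟩ := rec123 (an p A B) (Sr p A B) h0 hr
  obtain ⟨w1, w2, w3, hw⟩ := hnt (an p A B 1) (an p A B 2) (an p A B 3) (Sr p A B) e1 e2 e3
    (fun n hn => rec4 (an p A B) (Sr p A B) h0 hz hr n hn)
  have hp0 : (0 : ℝ) < p := by
    have : 0 < p := by omega
    exact_mod_cast this
  have key : ∀ m : ℕ, 1 ≤ m → ‖(w1 ^ 2) ^ m + (w2 ^ 2) ^ m + (w3 ^ 2) ^ m‖ ≤
      (13 * (p : ℝ) ^ 2) * (p : ℝ) ^ m := by
    intro m hm
    have hf : Module.finrank (ZMod p) (GaloisField p (2 * m)) = 2 * m :=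
      GaloisField.finrank p (by omega)
    letI : Fintype (GaloisField p (2 * m)) := Fintype.ofFinite _
    have hb := hst p (GaloisField p (2 * m)) m A B hp hA hm hf
    rw [hex p (GaloisField p (2 * m)) (2 * m) A B hf (by omega), hw (2 * m) (by omega),
      norm_neg, pow_mul, pow_mul, pow_mul] at hb
    exact hb
  have hC : (0 : ℝ) ≤ 13 * (p : ℝ) ^ 2 := by positivity
  have b1 : ‖w1 ^ 2‖ ≤ p := hpw (w1 ^ 2) (w2 ^ 2) (w3 ^ 2) p _ hp0 hC key
  have b2 : ‖w2 ^ 2‖ ≤ p := hpw (w2 ^ 2) (w1 ^ 2) (w3 ^ 2) p _ hp0 hC (fun m hm => by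
    have h := key m hm
    rwa [add_comm ((w1 ^ 2) ^ m) ((w2 ^ 2) ^ m)] at h)
  have b3 : ‖w3 ^ 2‖ ≤ p := hpw (w3 ^ 2) (w1 ^ 2) (w2 ^ 2) p _ hp0 hC (fun m hm => by
    have h := key m hm
    rwa [add_comm, ← add_assoc] at h)
  have c : ∀ w : ℂ, ‖w ^ 2‖ ≤ p → ‖w‖ ≤ Real.sqrt p := by
    intro w hw'
    rw [norm_pow] at hw'
    exact Real.le_sqrt_of_sq_le hw'
  have hS1 := hw 1 le_rfl
  rw [e1, h1, pow_one, pow_one, pow_one] at hS1
  rw [hS1, norm_neg]
  calc ‖w1 + w2 + w3‖ ≤ ‖w1‖ + ‖w2‖ + ‖w3‖ := norm_add₃_le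
    _ ≤ Real.sqrt p + Real.sqrt p + Real.sqrt p := by
        gcongr
        · exact c w1 b1
        · exact c w2 b2
        · exact c w3 b3
    _ = 3 * Real.sqrt p := by ring

end Pool.Agent.K4W.H8
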